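import Pool.Agent.R811.DML.Descent

/-!
# Dynamical Mordell-Lang for `Φ(x,y,z) = (x²+y, y²+z, z²+x)` at all points with `1/2 ∉ ℤ[x,y,z]`

The Jacobian of `Φ` is `8xyz + 1`, a unit at every `2`-adically integral point; if `2` is not
invertible in the ring generated by the coordinates of `α`, the field generated by them carries a
nonarchimedean absolute value, `|2| < 1`, for which `α` is integral with algebraic residues.
-/

set_option autoImplicit false

namespace Pool.Agent.Results.MP_e9abfe_ag.TwoNotInvertible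

theorem result (α : Fin 3 → ℂ) (h : ¬ IsUnit (2 : Subring.closure (Set.range α)))
    (S : Set (MvPolynomial (Fin 3) ℂ)) :
    ∃ F : Finset (ℕ × ℕ),
      {n : ℕ | ∀ f ∈ S,
          MvPolynomial.eval
            ((fun v : Fin 3 → ℂ => ![v 0 ^ 2 + v 1, v 1 ^ 2 + v 2, v 2 ^ 2 + v 0])^[n] α) f = 0}
        = {m : ℕ | ∃ p ∈ F, ∃ j : ℕ, m = p.1 + p.2 * j} := by
  obtain ⟨n, d, hd, hper⟩ := R811.DML.general α h
  obtain ⟨F, hF⟩ := R811.DML.union_aps
    (fun f : S => {m : ℕ | MvPolynomial.eval (R811.DML.Phi^[m] α) (f : MvPolynomial (Fin 3) ℂ) = 0})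
    n d hd (fun f r hinf k => hper f r hinf k)
  refine ⟨F, ?_⟩
  rw [← hF]
  ext m
  constructor
  · intro hm f
    exact hm f f.2
  · intro hm f hf
    exact hm ⟨f, hf⟩

end Pool.Agent.Results.MP_e9abfe_ag.TwoNotInvertible
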